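import Pool.Agent.Y719.NG.TwInt

/-!
# Moduli on the edge determine a field of definition of the Satake parameters

Let `F` be any number field of degree `d`, `Π` an automorphic representation of a reductive group over
`F` and `r` an algebraic representation of the `L`-group, so that `P_v = det(1 - X r(s_v))` for the
Satake parameters `s_v`.  Of the Euler product `L(Π, r, s)` only a bound towards the Ramanujan
conjecture and the Rankin-Selberg bound are used, as they are known for cuspidal representations of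
`GL_n`.  Let `R_j` be finitely many Euler products with coefficients in a field `E`, for example those
of motives over `F` with coefficients in a number field `E`, or of automorphic representations whose
Satake parameters are known to be defined over `E`, and let `m_j` be integers of any sign.  Let `ψ` be
one function of absolute value one on the places which separates the places above each prime number.
If for `0 ≤ i < d` the logarithm of `|L(Π, r, s)| / ∏_j |L(R_j, s)| ^ m_j`, all twisted by `ψ^i`, is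
concentrated on the edge of absolute convergence, that is nearly constant on a set of positive upper
density of the line, then `det(1 - X r(s_v))` has coefficients in `E` for every `v`.
-/

set_option autoImplicit false

namespace Pool.Agent.Results.MP_666dc0_nt.FieldOfDefinition

open NumberField IsDedekindDomain MeasureTheory Filter Topology Polynomial

section
variable {F : Type} [Field F] [NumberField F]

/-- The Euler factors `P_v` of an Euler product over `F` of degree at most `n` and weight `w` (unitary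
for `w = 0`): constant term `1`, a bound towards the Ramanujan conjecture, that is inverse roots at
most `Nv^{w/2 + δ}` in absolute value with one `δ < 1/2`, and the Rankin-Selberg bound
`∑_{Nv < x} |a_v|² Nv^{-w} log Nv = O(x)` for the coefficients `-a_v` of `X`. -/
structure IsAnalytic (w : ℝ) (n : ℕ) (P : HeightOneSpectrum (𝓞 F) → ℂ[X]) : Prop where
  coeff_zero : ∀ v, (P v).coeff 0 = 1
  natDegree_le : ∀ v, (P v).natDegree ≤ n
  bound : ∃ δ : ℝ, δ < 1 / 2 ∧ ∀ v, ∀ z : ℂ, (P v).eval z = 0 →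
    (Ideal.absNorm v.asIdeal : ℝ) ^ (-(w / 2 + δ)) ≤ ‖z‖
  meanSquare : ∃ C₀ : ℝ, ∀ (x : ℕ) (T : Finset (HeightOneSpectrum (𝓞 F))),
    (∀ v ∈ T, Ideal.absNorm v.asIdeal < x) →
      ∑ v ∈ T, ‖(P v).coeff 1‖ ^ 2 * (Ideal.absNorm v.asIdeal : ℝ) ^ (-w) *
        Real.log (Ideal.absNorm v.asIdeal) ≤ C₀ * x

/-- `ψ` separates the places above each prime number, up to the degree `M`. -/
def Separates (ψ : HeightOneSpectrum (𝓞 F) → ℂ) (M : ℕ) : Prop :=
  ∀ v w : HeightOneSpectrum (𝓞 F), v ≠ w → ∀ k l : ℕ, 1 ≤ k → k ≤ M → 1 ≤ l → l ≤ M →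
    Ideal.absNorm v.asIdeal ^ k = Ideal.absNorm w.asIdeal ^ l → ψ v ^ k ≠ ψ w ^ l

/-- The Euler product `∏_v P_v(ψ(v)^i Nv^{-s})⁻¹`: the product with the polynomials `P_v`, twisted by
`ψ^i`. -/
noncomputable def L (P : HeightOneSpectrum (𝓞 F) → ℂ[X]) (ψ : HeightOneSpectrum (𝓞 F) → ℂ) (i : ℕ)
    (s : ℂ) : ℂ :=
  ∏' v : HeightOneSpectrum (𝓞 F),
    ((P v).eval (ψ v ^ i * (Ideal.absNorm v.asIdeal : ℂ) ^ (-s)))⁻¹

/-- The limit of `|L(w/2 + 1 + σ + iτ)|` for `σ → 0`, `σ > 0`. -/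
noncomputable def edgeAbs (w : ℝ) (P : HeightOneSpectrum (𝓞 F) → ℂ[X])
    (ψ : HeightOneSpectrum (𝓞 F) → ℂ) (i : ℕ) (τ : ℝ) : ℝ :=
  limUnder (𝓝[>] (0 : ℝ)) fun σ : ℝ =>
    ‖L P ψ i (((w / 2 + 1 : ℝ) : ℂ) + σ + τ * Complex.I)‖

lemma IsAnalytic.typ {w : ℝ} {n : ℕ} {P : HeightOneSpectrum (𝓞 F) → ℂ[X]}
    (h : IsAnalytic w n P) : Pool.Agent.Y719.EL.N.Typ (Pool.Agent.Y719.EL.N.nz w P) n := by
  obtain ⟨δ, hδ, hz⟩ := h.bound
  obtain ⟨C₀, hms⟩ := h.meanSquare
  have key : ∀ v (z : ℂ), (Pool.Agent.Y719.EL.N.nz w P v).eval z = 0 →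
      (Ideal.absNorm v.asIdeal : ℝ) ^ (-δ) ≤ ‖z‖ := by
    intro v z h
    rw [Pool.Agent.Y719.EL.N.nz_eval] at h
    have h1 := hz v _ h
    rw [Pool.Agent.Y719.EL.N.nz_norm] at h1
    have hn : (0 : ℝ) < Ideal.absNorm v.asIdeal := Pool.Agent.Y719.EL.N.nm_real_pos v
    have h2 : 0 < (Ideal.absNorm v.asIdeal : ℝ) ^ (-(w / 2)) := Real.rpow_pos_of_pos hn _
    have h3 : (Ideal.absNorm v.asIdeal : ℝ) ^ (-(w / 2)) * (Ideal.absNorm v.asIdeal : ℝ) ^ (-δ) ≤
        (Ideal.absNorm v.asIdeal : ℝ) ^ (-(w / 2)) * ‖z‖ := by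
      rw [← Real.rpow_add hn, ← neg_add]
      exact h1
    exact le_of_mul_le_mul_left h3 h2
  refine ⟨fun v => Pool.Agent.Y719.EL.N.nz_coeff_zero (h.coeff_zero v),
    fun v => Pool.Agent.Y719.EL.N.nz_deg (h.natDegree_le v),
    fun v z hv => ?_, ⟨δ, hδ, Eventually.of_forall key⟩, ⟨C₀, fun x T hT => ?_⟩⟩
  · refine lt_of_lt_of_le ?_ (key v z hv)
    have h1 : (1 : ℝ) < Ideal.absNorm v.asIdeal := by
      have := Pool.Agent.Y719.EL.N.nm_real_two v
      have h2 : (2 : ℝ) ≤ Ideal.absNorm v.asIdeal := this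
      linarith
    have h2 : ((Ideal.absNorm v.asIdeal : ℝ))⁻¹ = (Ideal.absNorm v.asIdeal : ℝ) ^ (-1 : ℝ) :=
      (Real.rpow_neg_one _).symm
    exact h2.trans_lt (Real.rpow_lt_rpow_of_exponent_lt h1 (by linarith))
  · refine le_trans (le_of_eq (Finset.sum_congr rfl fun v _ => ?_)) (hms x T hT)
    have hn : (0 : ℝ) < Ideal.absNorm v.asIdeal := Pool.Agent.Y719.EL.N.nm_real_pos v
    have h1 : (Pool.Agent.Y719.EL.N.nz w P v).coeff 1 =
        (P v).coeff 1 * (((Ideal.absNorm v.asIdeal : ℝ) ^ (-(w / 2)) : ℝ) : ℂ) := by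
      unfold Pool.Agent.Y719.EL.N.nz
      rw [comp_C_mul_X_coeff, pow_one]
      rfl
    have h2 : ((Ideal.absNorm v.asIdeal : ℝ) ^ (-(w / 2))) ^ 2 =
        (Ideal.absNorm v.asIdeal : ℝ) ^ (-w) := by
      rw [← Real.rpow_natCast, ← Real.rpow_mul hn.le]
      congr 1
      push_cast
      ring
    rw [h1, norm_mul, mul_pow, Complex.norm_real,
      Real.norm_of_nonneg (Real.rpow_pos_of_pos hn _).le, h2]
    rfl

end

/-- The values of `f` are concentrated: there is `δ > 0` such that for every `ε > 0` there are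
arbitrarily large `T` and a real number `x` with `|f - x| < ε` on a subset of `(0, T]` of measure at
least `δ T`. -/
def Concentrated (f : ℝ → ℝ) : Prop :=
  ∃ δ : ℝ, 0 < δ ∧ ∀ ε : ℝ, 0 < ε → ∃ᶠ T : ℝ in atTop, ∃ x : ℝ,
    ENNReal.ofReal (δ * T) ≤ volume {τ | τ ∈ Set.Ioc 0 T ∧ |f τ - x| < ε}

/-- **A field of definition from moduli.**  Let `F` be a number field, `P` the Euler factors of
`L(Π, r, s)`, of degree at most `n`, and `R_j` finitely many families of Euler factors, of degrees at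
most `N_j` and with coefficients in a subfield `E` of `ℂ`; let `m_j` be integers and `M` at least
`n + ∑_{m_j < 0} |m_j| N_j` and at least `∑_{m_j > 0} m_j N_j`.  There are functions `ψ` of absolute
value `1` on the places which separate the places up to the degree `M`.  Let `ψ` be such a function.
If for `0 ≤ i < [F : ℚ]` the logarithm of `|L(P ⊗ ψ^i, s)| / ∏_j |L(R_j ⊗ ψ^i, s)| ^ m_j` on the line
`Re s = w/2 + 1` is concentrated, then all `P_v` have coefficients in `E`. -/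
theorem result (F : Type) [Field F] [NumberField F] (w : ℝ) (n : ℕ) (κ : Type) [Fintype κ]
    (N : κ → ℕ) (m : κ → ℤ) (P : HeightOneSpectrum (𝓞 F) → ℂ[X])
    (R : κ → HeightOneSpectrum (𝓞 F) → ℂ[X]) (hP : IsAnalytic w n P)
    (hR : ∀ j, IsAnalytic w (N j) (R j)) (E : Subfield ℂ)
    (hE : ∀ j v i, (R j v).coeff i ∈ E) (M : ℕ) (hM : n + ∑ j, (-m j).toNat * N j ≤ M)
    (hM' : ∑ j, (m j).toNat * N j ≤ M) :
    (∃ ψ : HeightOneSpectrum (𝓞 F) → ℂ, (∀ v, ‖ψ v‖ = 1) ∧ Separates ψ M) ∧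
    ∀ ψ : HeightOneSpectrum (𝓞 F) → ℂ, (∀ v, ‖ψ v‖ ≤ 1) → Separates ψ M →
      (∀ i < Module.finrank ℚ F, Concentrated fun τ => Real.log (edgeAbs w P ψ i τ) -
        ∑ j, m j * Real.log (edgeAbs w (R j) ψ i τ)) →
      ∀ v i, (P v).coeff i ∈ E := by
  classical
  refine ⟨?_, fun ψ hψ hsep hc v i => ?_⟩
  · obtain ⟨ψ, h1, h2⟩ := Pool.Agent.Y719.EL.N.exists_sep (K := F) M
    exact ⟨ψ, h1, fun v w hvw k l hk hkN hl hlN _ => h2 v w hvw k l hk hkN hl hlN⟩
  have hs := Pool.Agent.Y719.EL.N.sep_pow (N := M) (K := F) (ψ := ψ) hsep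
  have hnorm : ∀ (i : Fin (Module.finrank ℚ F)) (v : HeightOneSpectrum (𝓞 F)),
      ‖ψ v ^ (i : ℕ)‖ ≤ 1 := fun i v => by
    rw [norm_pow]
    exact pow_le_one₀ (norm_nonneg _) (hψ v)
  have he : ∀ (P : HeightOneSpectrum (𝓞 F) → ℂ[X]) (i : ℕ) (τ : ℝ),
      Pool.Agent.Y719.EL.N.eA w P (fun v => ψ v ^ i) τ = edgeAbs w P ψ i τ := by
    intro P i τ
    have hL : ∀ s, Pool.Agent.Y719.EL.N.LS P (fun v => ψ v ^ i) s = L P ψ i s := fun s => rfl
    unfold Pool.Agent.Y719.EL.N.eA edgeAbs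
    simp_rw [hL]
  have key := Pool.Agent.Y719.NG.factors_int (m := m) hP.typ (fun j => (hR j).typ) hnorm hM hM' hs
    (fun i => by
      have h1 := hc i i.2
      simp_rw [← he, Pool.Agent.Y719.EL.N.eA_eq] at h1
      exact h1) v
  -- the identity of the polynomials
  have hid : P v * ∏ j, R j v ^ (-m j).toNat = ∏ j, R j v ^ (m j).toNat := by
    refine Pool.Agent.Y719.EL.N.nz_injective (w := w) (v := v) ?_
    rw [mul_comp, prod_comp, prod_comp]
    simp_rw [pow_comp]
    exact key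
  -- descent
  have hlift : ∀ e : κ → ℕ, (∏ j, R j v ^ e j) ∈ Polynomial.lifts E.subtype := by
    intro e
    refine Subsemiring.prod_mem _ fun j _ => pow_mem ?_ _
    rw [lifts_iff_coeff_lifts]
    intro i
    exact ⟨⟨_, hE j v i⟩, rfl⟩
  obtain ⟨b, hb⟩ := (mem_lifts _).1 (hlift fun j => (-m j).toNat)
  obtain ⟨c, hcc⟩ := (mem_lifts _).1 (hlift fun j => (m j).toNat)
  rw [← hb, ← hcc] at hid
  have hb0 : b.map E.subtype ≠ 0 := by
    rw [hb]
    refine Finset.prod_ne_zero_iff.2 fun j _ => pow_ne_zero _ fun h0 => ?_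
    have h1 := (hR j).coeff_zero v
    rw [h0, coeff_zero] at h1
    exact zero_ne_one h1
  have hdvd : b ∣ c := by
    rw [← map_dvd_map' E.subtype]
    exact ⟨P v, by rw [← hid, mul_comm]⟩
  obtain ⟨q, hq⟩ := hdvd
  rw [hq, Polynomial.map_mul, mul_comm (b.map E.subtype)] at hid
  have h1 := mul_right_cancel₀ hb0 hid
  rw [h1, coeff_map]
  exact (q.coeff i).2

end Pool.Agent.Results.MP_666dc0_nt.FieldOfDefinition
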