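import Pool.Agent.Y801.LG.Main2

/-!
# Galois representations into L-groups: two primes suffice in the Artin case

Let `Π` be an L-algebraic automorphic representation of a connected reductive group `G` over a number field
`F`, unramified outside `S`, with Satake parameters `s v`. Let `L/F` be a finite Galois extension such that
`Gal(Fbar/F)` acts on the dual group through `Gal(L/F)`, and realize `Ĝ ⋊ Gal(L/F)` as a closed subgroup of
`GL_N` over `ℚ`; so for `σ ∈ Gal(Fbar/F)` the coset `Ĝ ⋊ σ` is defined in `GL_N` by a set `eqs σ` of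
polynomials over `ℚ`. Suppose that `Π` is of Artin type in one of the following two senses.

* For a set of places `v` of positive upper density the eigenvalues of the `N × N` matrix `s v` are roots of
  unity, and no nonempty subfamily of the eigenvalues has sum zero.
* For a set of places `v` of upper density greater than `1 - 1 / N ^ 2` the trace of `s v` lies in one
  finite set.

If the Buzzard-Gee conjecture (Q1.2) is true for `Π`, one prime `ℓ₁` and one isomorphism, then it is true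
for all `ℓ` and all isomorphisms, except that nothing is said about the places above `ℓ₁`; if it is true
for two primes and one isomorphism each then it is true for all `ℓ`, all isomorphisms and all places
outside `S`, those above `ℓ` included. The representations have finite image and the values at the `s v` of
the traces of all representations of the L-group generate a number field (Q1.1).
-/

set_option autoImplicit false

namespace Pool.Agent.Results.MP_666dc0_nt.LGroupTwoPrimes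

open NumberField IsDedekindDomain Filter

section defs

variable {F : Type} [Field F] [NumberField F]

/-- `σ` is a Frobenius element at the place `v` of `F`: there is a maximal ideal `Q` above `v` of the
ring of all algebraic integers with `σ x ≡ x ^ N(v)` modulo `Q` for all `x` -/
def Frobenius (v : HeightOneSpectrum (𝓞 F)) (σ : Gal(AlgebraicClosure F/F)) : Prop :=
  ∃ Q : Ideal (𝓞 (AlgebraicClosure F)), Q.IsMaximal ∧
    Q.comap (algebraMap (𝓞 F) (𝓞 (AlgebraicClosure F))) = v.asIdeal ∧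
    ∀ x : 𝓞 (AlgebraicClosure F), σ • x - x ^ Ideal.absNorm v.asIdeal ∈ Q

/-- `σ` is in an inertia group at the place `v` of `F` -/
def Inertia (v : HeightOneSpectrum (𝓞 F)) (σ : Gal(AlgebraicClosure F/F)) : Prop :=
  ∃ Q : Ideal (𝓞 (AlgebraicClosure F)), Q.IsMaximal ∧
    Q.comap (algebraMap (𝓞 F) (𝓞 (AlgebraicClosure F))) = v.asIdeal ∧
    ∀ x : 𝓞 (AlgebraicClosure F), σ • x - x ∈ Q

/-- the set `P` of places has upper natural density greater than `c`: for some `d > c` there are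
arbitrarily large `X` such that at least `d * #{v | N(v) ≤ X}` places of norm at most `X` lie in `P` -/
def UpperDensityGt (P : Set (HeightOneSpectrum (𝓞 F))) (c : ℝ) : Prop :=
  ∃ d : ℝ, c < d ∧ ∃ᶠ X : ℕ in atTop,
    d * ({v : HeightOneSpectrum (𝓞 F) | Ideal.absNorm v.asIdeal ≤ X}.ncard : ℝ) ≤
      ({v : HeightOneSpectrum (𝓞 F) | Ideal.absNorm v.asIdeal ≤ X ∧ v ∈ P}.ncard : ℝ)

variable {N : ℕ}

/-- the `k`-points of the coset `Ĝ ⋊ σ`, defined by the polynomials in `eqs σ` -/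
def Points (eqs : Gal(AlgebraicClosure F/F) → Set (MvPolynomial (Fin N × Fin N) ℚ)) (k : Type) [Field k]
    [CharZero k] (σ : Gal(AlgebraicClosure F/F)) : Set (GL (Fin N) k) :=
  {g | ∀ f ∈ eqs σ,
    MvPolynomial.eval₂ (Rat.castHom k) (fun x => (g : Matrix (Fin N) (Fin N) k) x.1 x.2) f = 0}

/-- the cosets are multiplied like the elements of the Galois group -/
structure IsLGroup (eqs : Gal(AlgebraicClosure F/F) → Set (MvPolynomial (Fin N × Fin N) ℚ)) : Prop where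
  one_mem : ∀ (k : Type) [Field k] [CharZero k], (1 : GL (Fin N) k) ∈ Points eqs k 1
  mul_mem : ∀ (k : Type) [Field k] [CharZero k] (σ τ : Gal(AlgebraicClosure F/F)) (g h : GL (Fin N) k),
    g ∈ Points eqs k σ → h ∈ Points eqs k τ → g * h ∈ Points eqs k (σ * τ)
  inv_mem : ∀ (k : Type) [Field k] [CharZero k] (σ : Gal(AlgebraicClosure F/F)) (g : GL (Fin N) k),
    g ∈ Points eqs k σ → g⁻¹ ∈ Points eqs k σ⁻¹

/-- `g` is semisimple: conjugate to a diagonal matrix over `ℂ` -/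
def Semisimple (g : GL (Fin N) ℂ) : Prop :=
  ∃ (x : GL (Fin N) ℂ) (d : Fin N → ℂ), (g : Matrix (Fin N) (Fin N) ℂ) =
    (x : Matrix (Fin N) (Fin N) ℂ) * Matrix.diagonal d * ((x⁻¹ : GL (Fin N) ℂ) : Matrix (Fin N) (Fin N) ℂ)

/-- all eigenvalues of `g` are roots of unity, and no nonempty sub-multiset of the multiset of the
eigenvalues has sum zero -/
def RootsOfUnity (g : GL (Fin N) ℂ) : Prop :=
  (∀ z ∈ (g : Matrix (Fin N) (Fin N) ℂ).charpoly.roots, ∃ m : ℕ, 0 < m ∧ z ^ m = 1) ∧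
    ∀ u : Multiset ℂ, u ≤ (g : Matrix (Fin N) (Fin N) ℂ).charpoly.roots → u ≠ 0 → u.sum ≠ 0

/-- `r` is a continuous homomorphism to the L-group over the projection to the Galois group -/
def Admissible (eqs : Gal(AlgebraicClosure F/F) → Set (MvPolynomial (Fin N × Fin N) ℚ)) {ℓ : ℕ}
    [Fact ℓ.Prime] (r : Gal(AlgebraicClosure F/F) →* GL (Fin N) (PadicAlgCl ℓ)) : Prop :=
  Continuous r ∧ ∀ σ, r σ ∈ Points eqs (PadicAlgCl ℓ) σ

/-- `r` is unramified at `v` and sends the Frobenius element `φ` to the class under `Ĝ` of `ι⁻¹(s)` -/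
def Matches (eqs : Gal(AlgebraicClosure F/F) → Set (MvPolynomial (Fin N × Fin N) ℚ)) {ℓ : ℕ}
    [Fact ℓ.Prime] (ι : PadicAlgCl ℓ ≃+* ℂ) (r : Gal(AlgebraicClosure F/F) →* GL (Fin N) (PadicAlgCl ℓ))
    (v : HeightOneSpectrum (𝓞 F)) (φ : Gal(AlgebraicClosure F/F)) (s : GL (Fin N) ℂ) : Prop :=
  (∀ τ, Inertia v τ → r τ = 1) ∧
    ∃ g ∈ Points eqs ℂ 1, Matrix.GeneralLinearGroup.map (ι : PadicAlgCl ℓ →+* ℂ) (r φ) = g * s * g⁻¹

end defs

theorem result (F : Type) [Field F] [NumberField F] (N : ℕ) (hN : 0 < N)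
    (eqs : Gal(AlgebraicClosure F/F) → Set (MvPolynomial (Fin N × Fin N) ℚ)) (hG : IsLGroup eqs)
    (S : Set (HeightOneSpectrum (𝓞 F))) (hS : S.Finite)
    (φ : HeightOneSpectrum (𝓞 F) → Gal(AlgebraicClosure F/F)) (hφ : ∀ v ∉ S, Frobenius v (φ v))
    (s : HeightOneSpectrum (𝓞 F) → GL (Fin N) ℂ) (hs : ∀ v ∉ S, Semisimple (s v))
    (hfin : UpperDensityGt {v | v ∉ S ∧ RootsOfUnity (s v)} 0 ∨
      ∃ T : Finset ℂ, UpperDensityGt {v | v ∉ S ∧ (s v : Matrix (Fin N) (Fin N) ℂ).trace ∈ T}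
        (1 - 1 / (N : ℝ) ^ 2))
    (Λ : Set ℕ) (hΛ : Λ.Nonempty) (hprime : ∀ ℓ ∈ Λ, ℓ.Prime)
    (h : ∀ (ℓ : ℕ) [Fact ℓ.Prime], ℓ ∈ Λ → ∃ (ι : PadicAlgCl ℓ ≃+* ℂ)
      (r : Gal(AlgebraicClosure F/F) →* GL (Fin N) (PadicAlgCl ℓ)), Admissible eqs r ∧
        ∀ v ∉ S, (ℓ : 𝓞 F) ∉ v.asIdeal → Matches eqs ι r v (φ v) (s v)) :
    (∃ E : IntermediateField ℚ ℂ, FiniteDimensional ℚ E ∧
      ∀ v ∉ S, (∃ ℓ ∈ Λ, (ℓ : 𝓞 F) ∉ v.asIdeal) → ∀ (d : ℕ) (R : GL (Fin N) ℂ → GL (Fin d) ℂ),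
        (∀ σ τ, ∀ g ∈ Points eqs ℂ σ, ∀ h ∈ Points eqs ℂ τ, R (g * h) = R g * R h) →
        (R (s v) : Matrix (Fin d) (Fin d) ℂ).trace ∈ E) ∧
    ∀ (ℓ : ℕ) [Fact ℓ.Prime] (ι : PadicAlgCl ℓ ≃+* ℂ),
      ∃ r : Gal(AlgebraicClosure F/F) →* GL (Fin N) (PadicAlgCl ℓ), Admissible eqs r ∧
        (Set.range r).Finite ∧
        ∀ v ∉ S, (∃ ℓ' ∈ Λ, (ℓ' : 𝓞 F) ∉ v.asIdeal) → Matches eqs ι r v (φ v) (s v) := by
  classical
  have hA : Pool.Agent.Y801.LG.Hyp N (fun v => (s v : Matrix (Fin N) (Fin N) ℂ)) S := by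
    rcases hfin with ⟨d, hd, hf⟩ | ⟨T, d, hd, hf⟩
    · obtain ⟨c', hc', hf'⟩ := Pool.Agent.Y802.rel_dens _ le_rfl hd hf
      exact Or.inl ⟨c', hc', hf'⟩
    · have h0 : (0 : ℝ) ≤ 1 - 1 / (N : ℝ) ^ 2 := by
        have h1 : (1 : ℝ) ≤ N := by exact_mod_cast hN
        have h2 : 1 / (N : ℝ) ^ 2 ≤ 1 := by
          rw [div_le_one (by positivity)]
          nlinarith
        linarith
      obtain ⟨c', hc', hf'⟩ := Pool.Agent.Y802.rel_dens _ h0 hd hf
      exact Or.inr ⟨T, c', hc', hf'⟩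
  have h' : ∀ (ℓ : ℕ) [Fact ℓ.Prime], ℓ ∈ Λ → ∃ (ι : PadicAlgCl ℓ ≃+* ℂ)
      (r : Gal(AlgebraicClosure F/F) →* GL (Fin N) (PadicAlgCl ℓ)), Continuous r ∧
        (∀ σ, r σ ∈ Pool.Agent.Y801.LG.Coset eqs (PadicAlgCl ℓ) σ) ∧
        ∀ v ∉ S, (ℓ : 𝓞 F) ∉ v.asIdeal →
          Pool.Agent.Y801.LG.Matches eqs (ι : PadicAlgCl ℓ →+* ℂ) r v (φ v) (s v) := by
    intro ℓ _ hℓ
    obtain ⟨ι, r, ⟨h1, h2⟩, h3⟩ := h ℓ hℓ
    exact ⟨ι, r, h1, h2, h3⟩
  obtain ⟨M, hM, hMs, hgood, hrep⟩ := Pool.Agent.Y801.LG.main eqs (hG.one_mem ℂ) (hG.mul_mem ℂ)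
    (hG.inv_mem ℂ) hN S hS φ hφ s hs hA Λ hΛ hprime h'
  refine ⟨?_, fun ℓ _ ι => ?_⟩
  · obtain ⟨E, hE, hEt⟩ := Pool.Agent.Y801.LG.exists_cyc M hM
    refine ⟨E, hE, fun v hv hvl d R hR => hEt _ ?_⟩
    exact Pool.Agent.Y801.LG.pow_hom eqs (hG.one_mem ℂ) (hG.mul_mem ℂ) hR (hMs v hv hvl)
      (hgood v hv hvl)
  · obtain ⟨r, h1, h2, h3, h4⟩ := hrep ℓ ι
    exact ⟨r, ⟨h1, h3⟩, h2, h4⟩

end Pool.Agent.Results.MP_666dc0_nt.LGroupTwoPrimes
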