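import Pool.Agent.Y803.PT.Two
import Pool.Agent.Y131.PT.Cliff
import Pool.Agent.Y131.PT.Masch
import Pool.Agent.Y410.PT.BN

/-!
# Patching Galois representations over arbitrary finite extensions

Let `Π` be an automorphic representation of `GL_n` over a number field `F`, unramified outside the finite
set `S` of places, with Satake parameters `diag (a v)`. A representation `ρ` of the absolute Galois group of
a finite extension `K` of `F` is called attached (to `Π`) if it is continuous and semisimple and has the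
expected local property at all places `w` of `K` above places `v` of `F` outside `S` for which `K_w = F_v`;
nothing is required at the other places of `K`.

* Two fields suffice: if `ρ` over `K` is attached, then there is a finite Galois extension `M` of `F`
  (depending on `ρ`) such that for every finite extension `K'` of `F` with `K' ∩ M = F` and every attached
  `ρ'` over `K'` there is exactly one semisimple representation `r` of the absolute Galois group of `F` which
  extends both `ρ` and `ρ'` up to isomorphism; it is continuous and has the expected local property at all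
  places `v` outside `S` for which `K` or `K'` has a place `w` above `v` of degree one.
* Families: if there are attached representations over a family of finite extensions of `F` such that for
  every finite Galois extension `M` of `F` some field of the family is linearly disjoint from `M`, then there is
  exactly one semisimple representation `r` of the absolute Galois group of `F` which restricts to all of them.
  It has the expected local property at all places `v` outside `S` for which some field of the family has a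
  place of degree one above `v`.

The extensions need not be Galois. (Patching lemmas for families of solvable Galois extensions were proved by
Blasius-Rogawski, Harris-Taylor and Sorensen.)
-/

set_option autoImplicit false

namespace Pool.Agent.Results.MP_666dc0_nt.PatchingNumberFields

open NumberField IsDedekindDomain

section defs

variable {F : Type} [Field F] [NumberField F]

/-- `Q` is a maximal ideal above the place `v` of `F` of the ring of all algebraic integers -/
def Above (v : HeightOneSpectrum (𝓞 F)) (Q : Ideal (𝓞 (AlgebraicClosure F))) : Prop :=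
  Q.IsMaximal ∧ Q.comap (algebraMap (𝓞 F) (𝓞 (AlgebraicClosure F))) = v.asIdeal

/-- `σ` is in the inertia group of `Q` -/
def Inertia (Q : Ideal (𝓞 (AlgebraicClosure F))) (σ : Gal(AlgebraicClosure F/F)) : Prop :=
  ∀ x : 𝓞 (AlgebraicClosure F), σ • x - x ∈ Q

/-- `σ` is a Frobenius element at `Q`, where `Q` is above `v` -/
def Frobenius (v : HeightOneSpectrum (𝓞 F)) (Q : Ideal (𝓞 (AlgebraicClosure F)))
    (σ : Gal(AlgebraicClosure F/F)) : Prop :=
  ∀ x : 𝓞 (AlgebraicClosure F), σ • x - x ^ Ideal.absNorm v.asIdeal ∈ Q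

/-- `Q` is above `v`, and `K_w = F_v` for the place `w` of `K` below `Q`: the inertia group and the Frobenius
elements at `Q`, which generate the decomposition group topologically, fix `K` -/
def DegreeOne (K : IntermediateField F (AlgebraicClosure F)) (v : HeightOneSpectrum (𝓞 F))
    (Q : Ideal (𝓞 (AlgebraicClosure F))) : Prop :=
  Above v Q ∧ ∀ σ : Gal(AlgebraicClosure F/F), Inertia Q σ ∨ Frobenius v Q σ → σ ∈ K.fixingSubgroup

variable {n : ℕ} {ℓ : ℕ} [Fact ℓ.Prime]

/-- Here `j : H → Gal(Fbar/F)` is the inclusion of a subgroup. The representation `ρ` of `H` is trivial on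
the elements of the inertia group of `Q`, and the images of the Frobenius elements at `Q` are conjugate to
the diagonal matrix with entries `ι⁻¹(α i)`. -/
def Matches (ι : PadicAlgCl ℓ ≃+* ℂ) (v : HeightOneSpectrum (𝓞 F)) (Q : Ideal (𝓞 (AlgebraicClosure F)))
    (α : Fin n → ℂ) {H : Type} [Group H] (j : H →* Gal(AlgebraicClosure F/F))
    (ρ : H →* GL (Fin n) (PadicAlgCl ℓ)) : Prop :=
  (∀ σ : H, Inertia Q (j σ) → ρ σ = 1) ∧
    ∀ σ : H, Frobenius v Q (j σ) → ∃ x : GL (Fin n) (PadicAlgCl ℓ),
      (ρ σ : Matrix (Fin n) (Fin n) (PadicAlgCl ℓ)) = (x : Matrix (Fin n) (Fin n) (PadicAlgCl ℓ)) *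
        Matrix.diagonal (fun i => ι.symm (α i)) *
          ((x⁻¹ : GL (Fin n) (PadicAlgCl ℓ)) : Matrix (Fin n) (Fin n) (PadicAlgCl ℓ))

/-- the subspace `W` is stable under all `ρ g` -/
def Stable {H : Type} [Group H] (ρ : H →* GL (Fin n) (PadicAlgCl ℓ))
    (W : Submodule (PadicAlgCl ℓ) (Fin n → PadicAlgCl ℓ)) : Prop :=
  ∀ g : H, ∀ w ∈ W, (ρ g : Matrix (Fin n) (Fin n) (PadicAlgCl ℓ)).mulVec w ∈ W

/-- the representation `ρ` is semisimple: every stable subspace has a stable complement -/
def Semisimple {H : Type} [Group H] (ρ : H →* GL (Fin n) (PadicAlgCl ℓ)) : Prop :=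
  ∀ W : Submodule (PadicAlgCl ℓ) (Fin n → PadicAlgCl ℓ), Stable ρ W →
    ∃ W' : Submodule (PadicAlgCl ℓ) (Fin n → PadicAlgCl ℓ), Stable ρ W' ∧ IsCompl W W'

/-- isomorphism of representations -/
def Iso {H : Type} [Group H] (ρ σ : H →* GL (Fin n) (PadicAlgCl ℓ)) : Prop :=
  ∃ x : GL (Fin n) (PadicAlgCl ℓ), ∀ h, ρ h = x * σ h * x⁻¹

/-- the restriction of a representation of `Gal(Fbar/F)` to `Gal(Fbar/K)` -/
noncomputable def Res (K : IntermediateField F (AlgebraicClosure F))
    (r : Gal(AlgebraicClosure F/F) →* GL (Fin n) (PadicAlgCl ℓ)) :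
    K.fixingSubgroup →* GL (Fin n) (PadicAlgCl ℓ) :=
  r.comp K.fixingSubgroup.subtype

/-- `ρ` is continuous and semisimple, and it matches the numbers `a v` at all places of `K` of degree one
above places `v` of `F` outside `S` -/
def Attached (S : Set (HeightOneSpectrum (𝓞 F))) (ι : PadicAlgCl ℓ ≃+* ℂ)
    (a : HeightOneSpectrum (𝓞 F) → Fin n → ℂ) (K : IntermediateField F (AlgebraicClosure F))
    (ρ : K.fixingSubgroup →* GL (Fin n) (PadicAlgCl ℓ)) : Prop :=
  Continuous ρ ∧ Semisimple ρ ∧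
    ∀ v ∉ S, ∀ Q, DegreeOne K v Q → Matches ι v Q (a v) K.fixingSubgroup.subtype ρ

end defs

theorem result (F : Type) [Field F] [NumberField F] (n : ℕ) (S : Set (HeightOneSpectrum (𝓞 F)))
    (hS : S.Finite) (ℓ : ℕ) [Fact ℓ.Prime] (ι : PadicAlgCl ℓ ≃+* ℂ)
    (a : HeightOneSpectrum (𝓞 F) → Fin n → ℂ) :
    (∀ (K : IntermediateField F (AlgebraicClosure F)) (ρ : K.fixingSubgroup →* GL (Fin n) (PadicAlgCl ℓ)),
      FiniteDimensional F K → Attached S ι a K ρ →
      ∃ M : IntermediateField F (AlgebraicClosure F), FiniteDimensional F M ∧ IsGalois F M ∧ K ≤ M ∧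
        ∀ (K' : IntermediateField F (AlgebraicClosure F))
          (ρ' : K'.fixingSubgroup →* GL (Fin n) (PadicAlgCl ℓ)),
          FiniteDimensional F K' → Attached S ι a K' ρ' → K' ⊓ M = ⊥ →
          ∃ r : Gal(AlgebraicClosure F/F) →* GL (Fin n) (PadicAlgCl ℓ), Continuous r ∧ Semisimple r ∧
            Iso (Res K r) ρ ∧ Iso (Res K' r) ρ' ∧
            (∀ v ∉ S, (∃ Q, DegreeOne K v Q ∨ DegreeOne K' v Q) →
              ∀ Q, Above v Q → Matches ι v Q (a v) (MonoidHom.id _) r) ∧
            ∀ r' : Gal(AlgebraicClosure F/F) →* GL (Fin n) (PadicAlgCl ℓ), Semisimple r' →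
              Iso (Res K r') ρ → Iso (Res K' r') ρ' → Iso r' r) ∧
    ∀ (I : Type) (K : I → IntermediateField F (AlgebraicClosure F))
      (ρ : ∀ i, (K i).fixingSubgroup →* GL (Fin n) (PadicAlgCl ℓ)),
      (∀ i, FiniteDimensional F (K i) ∧ Attached S ι a (K i) (ρ i)) →
      (∀ M : IntermediateField F (AlgebraicClosure F), FiniteDimensional F M → IsGalois F M →
        ∃ i, K i ⊓ M = ⊥) →
      ∃ r : Gal(AlgebraicClosure F/F) →* GL (Fin n) (PadicAlgCl ℓ), Continuous r ∧ Semisimple r ∧
        (∀ i, Iso (Res (K i) r) (ρ i)) ∧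
        (∀ v ∉ S, (∃ i Q, DegreeOne (K i) v Q) →
          ∀ Q, Above v Q → Matches ι v Q (a v) (MonoidHom.id _) r) ∧
        ∀ r' : Gal(AlgebraicClosure F/F) →* GL (Fin n) (PadicAlgCl ℓ), Semisimple r' →
          (∀ i, Iso (Res (K i) r') (ρ i)) → Iso r' r := by
  classical
  have cl := Pool.Agent.Y131.PT.cliff
  have ma := Pool.Agent.Y131.PT.masch
  have bn := Pool.Agent.Y410.PT.bn
  -- the trace condition
  have htr : ∀ (K : IntermediateField F (AlgebraicClosure F))
      (ρ : K.fixingSubgroup →* GL (Fin n) (PadicAlgCl ℓ)), Attached S ι a K ρ →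
      Pool.Agent.Y803.PT.TrAt S (fun v => ∑ i, ι.symm (a v i)) ρ := by
    intro K ρ h v hv Q hQ hin σ hσ hF
    obtain ⟨x, hx⟩ := (h.2.2 v hv Q ⟨hQ, hin⟩).2 ⟨σ, hσ⟩ hF
    rw [hx]
    show (((x : Matrix (Fin n) (Fin n) (PadicAlgCl ℓ)) * Matrix.diagonal (fun i => ι.symm (a v i)) *
      ((x⁻¹ : GL (Fin n) (PadicAlgCl ℓ)) : Matrix (Fin n) (Fin n) (PadicAlgCl ℓ)))).trace = _
    rw [Matrix.trace_units_conj, Matrix.trace_diagonal]
  have hcompat : ∀ (K : IntermediateField F (AlgebraicClosure F))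
      (ρ : K.fixingSubgroup →* GL (Fin n) (PadicAlgCl ℓ))
      (K' : IntermediateField F (AlgebraicClosure F))
      (ρ' : K'.fixingSubgroup →* GL (Fin n) (PadicAlgCl ℓ)),
      FiniteDimensional F K → FiniteDimensional F K' → Attached S ι a K ρ → Attached S ι a K' ρ' →
      Pool.Agent.Y803.PT.Compat ρ ρ' := by
    intro K ρ K' ρ' hK hK' h h'
    have := hK
    have := hK'
    exact Pool.Agent.Y803.PT.compat_of_trAt S hS _ (IntermediateField.fixingSubgroup_isOpen K)
      (IntermediateField.fixingSubgroup_isOpen K') ρ ρ' h.1 h'.1 (htr K ρ h) (htr K' ρ' h')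
  -- the local property
  have hloc : ∀ (r : Gal(AlgebraicClosure F/F) →* GL (Fin n) (PadicAlgCl ℓ))
      (K : IntermediateField F (AlgebraicClosure F)) (ρ : K.fixingSubgroup →* GL (Fin n) (PadicAlgCl ℓ)),
      Attached S ι a K ρ → Iso (Res K r) ρ → ∀ v ∉ S, ∀ Q₀, DegreeOne K v Q₀ → ∀ Q, Above v Q →
        Matches ι v Q (a v) (MonoidHom.id _) r := by
    intro r K ρ h hiso v hv Q₀ hQ₀ Q hQ
    obtain ⟨g, rfl⟩ := Pool.Agent.Y803.PT.trans v Q₀ Q hQ₀.1 hQ
    obtain ⟨y, hy⟩ := hiso
    have hm := h.2.2 v hv Q₀ hQ₀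
    have key : ∀ σ : Gal(AlgebraicClosure F/F), σ = g * (g⁻¹ * σ * g) * g⁻¹ := fun σ => by group
    refine ⟨fun σ hσ => ?_, fun σ hσ => ?_⟩
    · have h1 : Pool.Agent.Y803.PT.Inr Q₀ (g⁻¹ * σ * g) := Pool.Agent.Y803.PT.inr_conj hσ
      have h2 : g⁻¹ * σ * g ∈ K.fixingSubgroup := hQ₀.2 _ (Or.inl h1)
      have h3 := hy ⟨_, h2⟩
      rw [hm.1 ⟨_, h2⟩ h1, mul_one, mul_inv_cancel] at h3
      have h4 : r (g⁻¹ * σ * g) = 1 := h3
      rw [key σ, map_mul, map_mul, h4, mul_one, ← map_mul, mul_inv_cancel, map_one]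
    · have h1 : Pool.Agent.Y803.PT.Frb v Q₀ (g⁻¹ * σ * g) := Pool.Agent.Y803.PT.frb_conj_inv hσ
      have h2 : g⁻¹ * σ * g ∈ K.fixingSubgroup := hQ₀.2 _ (Or.inr h1)
      have h3 := hy ⟨_, h2⟩
      obtain ⟨x, hx⟩ := hm.2 ⟨_, h2⟩ h1
      have h4 : r (g⁻¹ * σ * g) = y * ρ ⟨_, h2⟩ * y⁻¹ := h3
      refine ⟨r g * y * x, ?_⟩
      have h5 : r σ = (r g * y) * ρ ⟨_, h2⟩ * (r g * y)⁻¹ := by
        conv_lhs => rw [key σ]
        rw [map_mul, map_mul, h4, map_inv]
        group
      rw [h5, mul_inv_rev (r g * y) x, Units.val_mul, Units.val_mul (r g * y), hx, Units.val_mul (r g * y) x,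
        Units.val_mul x⁻¹]
      simp only [mul_assoc]
  refine ⟨?_, ?_⟩
  · intro K ρ hK h
    have := hK
    obtain ⟨N, hNn, hNo, hNK, hN⟩ := Pool.Agent.Y803.PT.two cl ma bn K.fixingSubgroup
      (IntermediateField.fixingSubgroup_isOpen K) ρ h.2.1 (hcompat K ρ K ρ hK hK h h)
    obtain ⟨M, hMf, hMg, hM⟩ := Pool.Agent.Y803.PT.field_of N hNn hNo
    refine ⟨M, hMf, hMg, ?_, ?_⟩
    · rw [← hM] at hNK
      have h1 := IntermediateField.fixedField_antitone hNK
      rw [InfiniteGalois.fixedField_fixingSubgroup, InfiniteGalois.fixedField_fixingSubgroup] at h1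
      exact h1
    · intro K' ρ' hK' h' hdis
      have := hK'
      have := hMf
      have := hMg
      obtain ⟨r, hrc, hrs, hr1, hr2, hru⟩ := hN K'.fixingSubgroup
        (IntermediateField.fixingSubgroup_isOpen K') ρ' h'.1 h'.2.1 (hcompat K ρ K' ρ' hK hK' h h')
        (fun x => by
          rw [← hM]
          exact Pool.Agent.Y803.PT.decomp K' M hdis x)
      refine ⟨r, hrc, hrs, hr1, hr2, ?_, hru⟩
      rintro v hv ⟨Q₀, hQ₀ | hQ₀⟩ Q hQ
      · exact hloc r K ρ h hr1 v hv Q₀ hQ₀ Q hQ
      · exact hloc r K' ρ' h' hr2 v hv Q₀ hQ₀ Q hQ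
  · intro I K ρ h hgen
    have := fun i => (h i).1
    obtain ⟨r, hrc, hrs, hri, hru⟩ := Pool.Agent.Y803.PT.fam cl ma bn (fun i => (K i).fixingSubgroup)
      (fun i => IntermediateField.fixingSubgroup_isOpen (K i)) ρ (fun i => (h i).2.1)
      (fun i => (h i).2.2.1) (fun i j => hcompat _ _ _ _ (h i).1 (h j).1 (h i).2 (h j).2)
      (fun N hNn hNo => by
        obtain ⟨M, hMf, hMg, hM⟩ := Pool.Agent.Y803.PT.field_of N hNn hNo
        obtain ⟨i, hi⟩ := hgen M hMf hMg
        have := hMf
        have := hMg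
        refine ⟨i, fun x => ?_⟩
        rw [← hM]
        exact Pool.Agent.Y803.PT.decomp (K i) M hi x)
    refine ⟨r, hrc, hrs, hri, ?_, hru⟩
    rintro v hv ⟨i, Q₀, hQ₀⟩ Q hQ
    exact hloc r (K i) (ρ i) (h i).2 (hri i) v hv Q₀ hQ₀ Q hQ

end Pool.Agent.Results.MP_666dc0_nt.PatchingNumberFields
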